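import Mathlib
import Pool.Agent.Q94.SoficData

/-! # A non-sofic monoid whose `J`-class of the identity is a residually finite group -/

namespace Pool.Agent.Results.MP_6d1796_al.NonSoficMonoid

open Pool.Agent.Q94.Sofic

/-- the `J`-class of the identity: `{x | MxM = M}` -/
def JOne (M : Type*) [Monoid M] : Set M := {x | {w | ∃ r s : M, w = r * x * s} = Set.univ}

/-- **The answer to Q1 is negative.**  There is a monoid `M` such that every element of the
`J`-class of the identity is invertible, the group of units of `M` is sofic (even residually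
finite), and `M` is not sofic. -/
theorem result : ∃ (M : Type) (_ : Monoid M), (∀ x ∈ JOne M, IsUnit x) ∧ IsSofic Mˣ ∧
    ResFin Mˣ ∧ ¬ IsSofic M := by
  have hrf : ResFin (Tri dat true)ˣ := by
    classical
    intro S
    obtain ⟨Q, _, _, φ, hφ⟩ := Lamp.resFin (S.image (Tri.unitsEquiv dat true).symm)
    refine ⟨Q, inferInstance, inferInstance,
      φ.comp (Tri.unitsEquiv dat true).symm.toMonoidHom, ?_⟩
    intro x hx y hy hxy
    exact (Tri.unitsEquiv dat true).symm.injective
      (hφ (Finset.mem_coe.mpr (Finset.mem_image_of_mem _ hx))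
        (Finset.mem_coe.mpr (Finset.mem_image_of_mem _ hy)) hxy)
  refine ⟨Tri dat true, inferInstance, ?_, hrf.isSofic, hrf, tri_not_sofic⟩
  intro x hx
  apply Tri.isUnit_of_J
  intro w
  have h : w ∈ {w | ∃ r s : Tri dat true, w = r * x * s} := by
    have hx' : {w | ∃ r s : Tri dat true, w = r * x * s} = Set.univ := hx
    rw [hx']
    trivial
  exact h

end Pool.Agent.Results.MP_6d1796_al.NonSoficMonoid
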